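import Pool.Agent.Helper58.Bil.LinkDefs

/-!
The structure `LinkBase`: everything known about the links near a base point.
-/

set_option autoImplicit false

namespace Pool.Agent.Helper58.Bil

open Real Set Filter Topology

structure LinkBase (α x e : ℝ) : Prop where
  sD1 : SmAt (D1 α) (q0 x e)
  sD2 : SmAt (D2 α) (q0 x e)
  sD3 : SmAt (D3 α) (q0 x e)
  sD4 : SmAt (D4 α) (q0 x e)
  sK1 : SmAt (K1 α) (q0 x e)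
  sK2 : SmAt (K2 α) (q0 x e)
  sN2 : SmAt (N2 α) (q0 x e)
  se2 : SmAt (e2 α) (q0 x e)
  sh2 : SmAt (h2 α) (q0 x e)
  sX : SmAt (XX α) (q0 x e)
  se4 : SmAt (e4 α) (q0 x e)
  sh4 : SmAt (h4 α) (q0 x e)
  vD1 : D1 α (q0 x e) = 1 / tan α
  vD2 : D2 α (q0 x e) = 1 / tan (al2 α)
  vD3 : D3 α (q0 x e) = -(1 / tan (al2 α))
  vD4 : D4 α (q0 x e) = -(1 / tan α)
  vK1 : K1 α (q0 x e) = -1
  vK2 : K2 α (q0 x e) = 1
  vh2 : h2 α (q0 x e) = 0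
  ve2 : 2 * sin (al2 α) * e2 α (q0 x e) = -(1 / tan α + 1 / tan (al2 α)) - 2 * sin α * e
  rel : ∀ᶠ q in 𝓝 (q0 x e),
    LinkRel α (al2 α) (-1) q.1 (PP q.2.1 q.2.2.1) 0 q.2.2.2.1 q.2.2.2.2
      (N2 α q) (e2 α q) (h2 α q) (D1 α q) (D2 α q) (K1 α q) ∧
    LinkRel (al2 α) α 1 q.1 (PP q.2.1 q.2.2.1) (N2 α q) (e2 α q) (h2 α q)
      (XX α q) (e4 α q) (h4 α q) (D3 α q) (D4 α q) (K2 α q)
  uni : ∀ᶠ q in 𝓝 (q0 x e),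
    (∀ D ∈ Icc (-(2 / tan (al2 α))) 0, F3 α (D, q) = 0 → D = D3 α q) ∧
    (∀ D ∈ Icc (-(2 / tan α)) 0, F4 α (D, q) = 0 → D = D4 α q)

end Pool.Agent.Helper58.Bil
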