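import Pool.Agent.Helper58.Bil.LinkDefs

/-!
Unscaled objects: raw launcher, half launcher, full launcher, base table.
-/

set_option autoImplicit false

namespace Pool.Agent.Helper58.Bil

open Real Set Filter Topology

/-- `C²`-smallness on a set. -/
def C2s (f : ℝ → ℝ) (S : Set ℝ) (c : ℝ) : Prop :=
  ∀ y ∈ S, |f y| ≤ c ∧ |deriv f y| ≤ c ∧ |deriv (deriv f) y| ≤ c

/-- A function that is smooth on `Iio b`, vanishes on `Iic 0` and is `C²`-small. -/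
structure Good (f : ℝ → ℝ) (b c : ℝ) : Prop where
  sm : ContDiffOn ℝ ((⊤ : ℕ∞) : WithTop ℕ∞) f (Iio b)
  zero : ∀ y ≤ 0, f y = 0
  small : C2s f (Iio b) c

/-- Raw launcher, parametrised by the position `x` on mirror 1, `x ∈ (0, 1/5)`.
`f1` = level of mirror 1 at `x`, `w1` = its slope, `c1, c2` = excess half angles of the fast ray
at mirrors 1, 2, `kA` = fast front between them, `v2, w2` = level and slope of mirror 2 at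
`x + c1 + c2`, `c3, c4` = excess half angles of the slow ray at mirrors 2, 1, `kS` = slow front
between them; the cycle ends at mirror 1 at `x + c1 + c2 + c3 + c4`. -/
structure Raw (α c ε : ℝ) (f1 w1 c1 c2 c3 c4 kA kS v2 w2 : ℝ → ℝ) : Prop where
  εpos : 0 < ε
  εc : ε ≤ c
  gchi : Good (fun y => ε * chi y) (1 / 5) c
  g1 : Good f1 (1 / 5) c
  gc1 : Good c1 (1 / 5) c
  gc2 : Good c2 (1 / 5) c
  gc3 : Good c3 (1 / 5) c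
  gc4 : Good c4 (1 / 5) c
  gkA : Good kA (1 / 5) c
  gkS : Good kS (1 / 5) c
  gv2 : Good v2 (1 / 5) c
  sgn : ∀ x ∈ Ioo (0 : ℝ) (1 / 5), |c1 x| ≤ x / 10 ∧ |c2 x| ≤ x / 10 ∧ |c3 x| ≤ x / 10 ∧
    |c4 x| ≤ x / 10
  R1 : ∀ x ∈ Ioo (0 : ℝ) (1 / 5), 1 - ε * chi (x - c1 x) =
    (1 / cos α + f1 x) * cos (α + c1 x) - w1 x * sin (α + c1 x)
  R2 : ∀ x ∈ Ioo (0 : ℝ) (1 / 5), 1 + kA x =
    (1 / cos α + f1 x) * cos (α + c1 x) + w1 x * sin (α + c1 x)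
  R3 : ∀ x ∈ Ioo (0 : ℝ) (1 / 5), 1 + kA x =
    (1 / cos (al2 α) + v2 x) * cos (al2 α + c2 x) - w2 x * sin (al2 α + c2 x)
  R4 : ∀ x ∈ Ioo (0 : ℝ) (1 / 5), 1 - ε * chi (x + c1 x + 2 * c2 x) =
    (1 / cos (al2 α) + v2 x) * cos (al2 α + c2 x) + w2 x * sin (al2 α + c2 x)
  R5 : ∀ x ∈ Ioo (0 : ℝ) (1 / 5),
    (2 * (1 / cos α + f1 x) * sin (α + c1 x) - 2 * c1 x - 2 * tan α)
      + (2 * (1 / cos (al2 α) + v2 x) * sin (al2 α + c2 x) - 2 * c2 x - 2 * tan (al2 α))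
    = -∫ y in (x - c1 x)..(x + c1 x + 2 * c2 x), ε * chi y
  S1 : ∀ x ∈ Ioo (0 : ℝ) (1 / 5), 1 + ε * chi (x + c1 x + c2 x - c3 x) =
    (1 / cos (al2 α) + v2 x) * cos (al2 α + c3 x) - w2 x * sin (al2 α + c3 x)
  S2 : ∀ x ∈ Ioo (0 : ℝ) (1 / 5), 1 + kS x =
    (1 / cos (al2 α) + v2 x) * cos (al2 α + c3 x) + w2 x * sin (al2 α + c3 x)
  S3 : ∀ x ∈ Ioo (0 : ℝ) (1 / 5), 1 + kS x =
    (1 / cos α + f1 (x + c1 x + c2 x + c3 x + c4 x)) * cos (α + c4 x)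
      - w1 (x + c1 x + c2 x + c3 x + c4 x) * sin (α + c4 x)
  S4 : ∀ x ∈ Ioo (0 : ℝ) (1 / 5), 1 + ε * chi (x + c1 x + c2 x + c3 x + 2 * c4 x) =
    (1 / cos α + f1 (x + c1 x + c2 x + c3 x + c4 x)) * cos (α + c4 x)
      + w1 (x + c1 x + c2 x + c3 x + c4 x) * sin (α + c4 x)
  S5 : ∀ x ∈ Ioo (0 : ℝ) (1 / 5),
    (2 * (1 / cos (al2 α) + v2 x) * sin (al2 α + c3 x) - 2 * c3 x - 2 * tan (al2 α))
      + (2 * (1 / cos α + f1 (x + c1 x + c2 x + c3 x + c4 x)) * sin (α + c4 x) - 2 * c4 x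
          - 2 * tan α)
    = ∫ y in (x + c1 x + c2 x - c3 x)..(x + c1 x + c2 x + c3 x + 2 * c4 x), ε * chi y
  left : ∀ x ∈ Ioo (0 : ℝ) (1 / 5), c1 x + c2 x + c3 x + c4 x < 0
  plat : ∀ x ∈ Ico (3 / 20 : ℝ) (1 / 5), f1 x = f1 (3 / 20) ∧ c1 x = c1 (3 / 20) ∧
    c2 x = c2 (3 / 20) ∧ c3 x = c3 (3 / 20) ∧ c4 x = c4 (3 / 20) ∧ v2 x = v2 (3 / 20) ∧
    w1 x = 0 ∧ kA x = -ε ∧ kS x = ε

/-- One law at a mirror with half angle near `α`, radius `1/cos α + f`, incoming front `I` and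
outgoing front `O`, at position `m`. -/
def Law (α : ℝ) (f I O : ℝ → ℝ) (m d : ℝ) : Prop :=
  1 + I (m - d + α) = (1 / cos α + f m) * cos d - deriv f m * sin d ∧
  1 + O (m + d - α) = (1 / cos α + f m) * cos d + deriv f m * sin d

/-- All laws at a mirror for positions `m < 9/50` (left half of the gap). -/
def HLaw (α : ℝ) (f I O : ℝ → ℝ) : Prop :=
  ∀ m < 9 / 50, ∃ d, |d - α| ≤ 1 / 200 ∧ (0 ≤ m → 0 ≤ m - d + α ∧ 0 ≤ m + d - α) ∧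
    (m < 0 → d = α) ∧ Law α f I O m d

/-- Left half launcher: mirrors `f1, f2`; fast fronts: `A` on a-legs (mirror 1 → mirror 2),
`- ε chi` on b-legs (mirror 2 → mirror 1); slow fronts: `ε chi` on a-legs, `S` on b-legs. -/
structure HalfL (α c ε : ℝ) (f1 f2 A S : ℝ → ℝ) : Prop where
  εpos : 0 < ε
  gchi : Good (fun y => ε * chi y) (19 / 100) c
  g1 : Good f1 (19 / 100) c
  g2 : Good f2 (19 / 100) c
  gA : Good A (19 / 100) c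
  gS : Good S (19 / 100) c
  plat : ∀ y ∈ Ico (4 / 25 : ℝ) (19 / 100), f1 y = f1 (4 / 25) ∧ f2 y = f2 (4 / 25) ∧
    A y = -ε ∧ S y = ε
  fast1 : HLaw α f1 (fun y => -(ε * chi y)) A
  fast2 : HLaw (al2 α) f2 A (fun y => -(ε * chi y))
  slow2 : HLaw (al2 α) f2 (fun y => ε * chi y) S
  slow1 : HLaw α f1 S (fun y => ε * chi y)

/-- The gap. -/
def gapI : Set ℝ := Icc 0 (7 / 20)

/-- All laws at a mirror, full gap. -/
def FLaw (α : ℝ) (f I O : ℝ → ℝ) : Prop :=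
  ∀ m, ∃ d, |d - α| ≤ 1 / 200 ∧ (m ∈ gapI → m - d + α ∈ gapI ∧ m + d - α ∈ gapI) ∧
    (m ∉ gapI → d = α) ∧ Law α f I O m d

/-- Smooth, supported in the gap, `C²`-small. -/
structure GoodF (f : ℝ → ℝ) (c : ℝ) : Prop where
  sm : ContDiff ℝ ((⊤ : ℕ∞) : WithTop ℕ∞) f
  zero : ∀ y, y ∉ Ioo (0 : ℝ) (7 / 20) → f y = 0
  small : C2s f univ c

/-- Full launcher: two exact families (fast `A, B`; slow `A', B'`) on the same mirrors. -/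
structure Launcher (α c : ℝ) (f1 f2 A B A' B' : ℝ → ℝ) : Prop where
  g1 : GoodF f1 c
  g2 : GoodF f2 c
  gA : GoodF A c
  gB : GoodF B c
  gA' : GoodF A' c
  gB' : GoodF B' c
  fast1 : FLaw α f1 B A
  fast2 : FLaw (al2 α) f2 A B
  slow1 : FLaw α f1 B' A'
  slow2 : FLaw (al2 α) f2 A' B'
  ne : A (7 / 40) ≠ A' (7 / 40)

/-- The base table: `π`-periodic, even, string construction round `1 + κ b`. -/
structure Base (α c : ℝ) (H h d : ℝ → ℝ) : Prop where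
  α1 : π / 4 < α
  α2 : α < π / 4 + 1 / 100
  cpos : 0 < c
  sH : ContDiff ℝ ((⊤ : ℕ∞) : WithTop ℕ∞) H
  sh : ContDiff ℝ ((⊤ : ℕ∞) : WithTop ℕ∞) h
  pH : Function.Periodic H π
  ph : Function.Periodic h π
  pd : Function.Periodic d π
  eH : ∀ θ, H (-θ) = H θ
  eh : ∀ θ, h (-θ) = h θ
  ed : ∀ θ, d (-θ) = d θ
  d0 : ∀ θ, 0 < d θ
  d1 : ∀ θ, d θ < π / 2
  law1 : ∀ θ, h (θ - d θ) = H θ * cos (d θ) - deriv H θ * sin (d θ)
  law2 : ∀ θ, h (θ + d θ) = H θ * cos (d θ) + deriv H θ * sin (d θ)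
  mono1 : StrictMono (fun θ => θ - d θ)
  mono2 : StrictMono (fun θ => θ + d θ)
  h1 : ∀ ψ ∈ Icc (1 / 10) (π - 1 / 10), h ψ = 1
  w1 : ∀ θ ∈ Icc (-(2 / 5) : ℝ) (2 / 5), H θ = 1 / cos α ∧ d θ = α
  w2 : ∀ θ ∈ Icc (π / 2 - 2 / 5) (π / 2 + 2 / 5), H θ = 1 / cos (al2 α) ∧ d θ = al2 α
  cH : ∀ θ, c ≤ H θ + deriv (deriv H) θ
  ch : ∀ θ, c ≤ h θ + deriv (deriv h) θ
  hH : ∀ θ, h θ + c ≤ H θ
  hc : ∀ θ, c ≤ h θ

/-- Hypotheses of the geometric theorem. -/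
structure GeomHyp (H h d : ℝ → ℝ) : Prop where
  sH : ContDiff ℝ ((⊤ : ℕ∞) : WithTop ℕ∞) H
  sh : ContDiff ℝ ((⊤ : ℕ∞) : WithTop ℕ∞) h
  pH : Function.Periodic H (2 * π)
  ph : Function.Periodic h (2 * π)
  cH : ∀ θ, 0 < H θ + deriv (deriv H) θ
  ch : ∀ θ, 0 < h θ + deriv (deriv h) θ
  hpos : ∀ θ, 0 < h θ
  hH : ∀ θ, h θ < H θ
  d0 : ∀ θ, 0 < d θ
  d1 : ∀ θ, d θ < π / 2
  law1 : ∀ θ, h (θ - d θ) = H θ * cos (d θ) - deriv H θ * sin (d θ)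
  law2 : ∀ θ, h (θ + d θ) = H θ * cos (d θ) + deriv H θ * sin (d θ)
  eH : ∀ θ, H (-θ) = H θ
  ne : ∃ θ, h (-θ) ≠ h θ

end Pool.Agent.Helper58.Bil
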