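import Mathlib

/-!
Definitions for the construction of a billiard table with a mirror axis and an asymmetric
convex caustic (MP_190632_an, S03949). See note 495.
-/

set_option autoImplicit false

namespace Pool.Agent.Helper58.Bil

open Real Set Filter Topology

/-! ### Smooth functions near the base `t = s = 0` -/

/-- `Φ` is `C^∞` in a neighbourhood of `p`. -/
def SmAt {X F : Type} [NormedAddCommGroup X] [NormedSpace ℝ X] [NormedAddCommGroup F]
    [NormedSpace ℝ F] (Φ : X → F) (p : X) : Prop :=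
  ∀ᶠ w in 𝓝 p, ContDiffAt ℝ ((⊤ : ℕ∞) : WithTop ℕ∞) Φ w

/-- `Φ (t, s, x, u)` is `C^∞` near every point with `t = s = 0`. -/
def SF {E F : Type} [NormedAddCommGroup E] [NormedSpace ℝ E] [NormedAddCommGroup F]
    [NormedSpace ℝ F] (Φ : ℝ × ℝ × ℝ × E → F) : Prop :=
  ∀ (x : ℝ) (u : E), SmAt Φ (0, 0, x, u)

/-- Quotient of `Φ (t, p)` by `t` (derivative at `t = 0`). -/
noncomputable def divt {G F : Type} [NormedAddCommGroup F] [NormedSpace ℝ F]
    (Φ : ℝ × G → F) : ℝ × G → F :=
  fun p => if p.1 = 0 then deriv (fun t => Φ (t, p.2)) 0 else p.1⁻¹ • Φ p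

open Classical in
/-- A zero of `F (·, p)` in `[a, b]`. -/
noncomputable def zer {G : Type} (F : ℝ × G → ℝ) (a b : ℝ) (p : G) : ℝ :=
  if h : ∃ D ∈ Icc a b, F (D, p) = 0 then h.choose else a

/-! ### The profile -/

/-- The normalised profile: `0` for `x ≤ 0`, `1` for `x ≥ 1/10`. -/
noncomputable def chi (x : ℝ) : ℝ := smoothTransition (10 * x)

/-- `chi x = exp (-(1/10)/x) * gg x` for `0 < x`. -/
noncomputable def gg (x : ℝ) : ℝ := 1 / (expNegInvGlue (10 * x) + expNegInvGlue (1 - 10 * x))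

/-- `x ^ 2 * deriv chi x = kt x * chi x`. -/
noncomputable def kt (x : ℝ) : ℝ := 1 / 10 + x ^ 2 * (deriv gg x / gg x)

/-- `chi x / x ^ 2`. -/
noncomputable def k2 (x : ℝ) : ℝ := chi x / x ^ 2

/-- The scaled profile: `chi (x + t Y) = chi x * PP s x Y` when `0 < x`, `t = x ^ 2 * s`. -/
noncomputable def PP (s x Y : ℝ) : ℝ :=
  exp ((1 / 10) * (s * Y / (1 + x * s * Y))) * (gg (x + x ^ 2 * s * Y) / gg x)

/-- The weight `t = ε chi x`. -/
noncomputable def tt (ε x : ℝ) : ℝ := ε * chi x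

/-- The weight `s = t / x ^ 2`. -/
noncomputable def ts (ε x : ℝ) : ℝ := ε * k2 x

/-- The point at which the smooth functions are evaluated. -/
noncomputable def WW {E : Type} (ε : ℝ) (u : ℝ → E) (x : ℝ) : ℝ × ℝ × ℝ × E :=
  (tt ε x, ts ε x, x, u x)

/-- The derivation `x ^ 2 d/dx`. -/
noncomputable def th {F : Type} [NormedAddCommGroup F] [NormedSpace ℝ F]
    (f : ℝ → F) : ℝ → F := fun x => x ^ 2 • deriv f x

/-! ### The links -/

/-- `(E cos d - 1)/t` with `E = 1/cos α + t ^ 2 e`, `d = α + t D`. -/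
noncomputable def cc (α t D e : ℝ) : ℝ :=
  if t = 0 then -(tan α * D) else ((1 / cos α + t ^ 2 * e) * cos (α + t * D) - 1) / t

/-- `(2 E sin d - 2 (d - α) - 2 tan α)/t ^ 2` with `E = 1/cos α + t ^ 2 e`, `d = α + t D`. -/
noncomputable def sg (α t D e : ℝ) : ℝ :=
  if t = 0 then 2 * e * sin α - tan α * D ^ 2
  else (2 * (1 / cos α + t ^ 2 * e) * sin (α + t * D) - 2 * (t * D) - 2 * tan α) / t ^ 2

/-- The scaled link relation from a contact element `(N, e, η)` of a mirror of type `α` to a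
contact element `(N', e', η')` of a mirror of type `α'`, front `σ P`. -/
structure LinkRel (α α' σ t : ℝ) (P : ℝ → ℝ) (N e η N' e' η' D D' k : ℝ) : Prop where
  r1 : σ * P (N - D) = cc α t D e - η * sin (α + t * D)
  r2 : k = cc α t D e + η * sin (α + t * D)
  r3 : k = cc α' t D' e' - η' * sin (α' + t * D')
  r4 : σ * P (N + D + 2 * D') = cc α' t D' e' + η' * sin (α' + t * D')
  r5 : N' = N + D + D'
  r6 : sg α t D e + sg α' t D' e' = σ * ∫ y in (N - D)..(N + D + 2 * D'), P y

end Pool.Agent.Helper58.Bil
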