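import Pool.Agent.Helper33.Bil.Launch1
import Pool.Agent.Helper42.Bil.Launch2
import Pool.Agent.Helper82.Bil.MIRROR
import Pool.Agent.Helper16.Bil.Assembly
import Pool.Agent.Helper22.Bil.Base

/-!
Composition of the pieces (MP_190632_an): base table, launcher, mirror doubling, assembly.
-/

set_option autoImplicit false

namespace Pool.Agent.Helper58.Bil

open Real Set Filter Topology

theorem exists_geomHyp : ∃ H h d : ℝ → ℝ, GeomHyp H h d := by
  obtain ⟨α, c, H, h, d, Bs⟩ := base_table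
  have hc := Bs.cpos
  have hα2 : α < π / 2 := by
    have h1 := Bs.α2
    have h3 := Real.pi_gt_three
    linarith
  obtain ⟨c₀, hc₀, hc₀', hc₀''⟩ : ∃ c₀ : ℝ, 0 < c₀ ∧ c₀ ≤ 1 / 10000 ∧ 20 * (16 * c₀) ≤ c := by
    refine ⟨min (1 / 10000) (c / 320), lt_min (by norm_num) (by positivity), min_le_left _ _, ?_⟩
    have := min_le_right (1 / 10000 : ℝ) (c / 320)
    linarith
  obtain ⟨ε, f1, w1, c1, c2, c3, c4, kA, kS, v2, w2, R⟩ := launch1 Bs.α1 hα2 hc₀
  have h3 : c₀ < al2 α := by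
    have h1 := Bs.α2
    have h3 := Real.pi_gt_three
    unfold al2
    linarith
  obtain ⟨f2, A, S, HL⟩ := launch2 Bs.α1 hα2 hc₀ hc₀' h3 R
  obtain ⟨g1, g2, A₁, B₁, A₂, B₂, L⟩ := mirror Bs.α1 hα2 HL
  exact assembly Bs L hc₀''

end Pool.Agent.Helper58.Bil
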