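import Pool.Agent.Helper58.Bil.SysDefs

/-!
The two links (fast: mirror 1 → mirror 2, slow: mirror 2 → mirror 1) as explicit functions of
`q = (t, s, x, e, η)`; base points are `(0, 0, x, e, 0)`.
-/

set_option autoImplicit false

namespace Pool.Agent.Helper58.Bil

open Real Set Filter Topology

/-- Parameters `(t, s, x, e, η)`. -/
abbrev QQ : Type := ℝ × ℝ × ℝ × ℝ × ℝ

/-- Base point. -/
def q0 (x e : ℝ) : QQ := (0, 0, x, e, 0)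

/-- Half angle of mirror 2. -/
noncomputable def al2 (α : ℝ) : ℝ := π / 2 - α

/-- Equation of the incoming fast ray at mirror 1; unknown `D = z.1`. -/
noncomputable def F1 (α : ℝ) (z : ℝ × QQ) : ℝ :=
  - PP z.2.2.1 z.2.2.2.1 (- z.1) - cc α z.2.1 z.1 z.2.2.2.2.1
    + z.2.2.2.2.2 * sin (α + z.2.1 * z.1)

noncomputable def D1 (α : ℝ) (q : QQ) : ℝ := zer (F1 α) 0 (2 / tan α) q

noncomputable def K1 (α : ℝ) (q : QQ) : ℝ :=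
  cc α q.1 (D1 α q) q.2.2.2.1 + q.2.2.2.2 * sin (α + q.1 * D1 α q)

/-- `e` of mirror 2 as a function of the unknown `D' = z.1` (path length). -/
noncomputable def E2f (α : ℝ) (z : ℝ × QQ) : ℝ :=
  (-(∫ y in (- D1 α z.2)..(D1 α z.2 + 2 * z.1), PP z.2.2.1 z.2.2.2.1 y)
    - sg α z.2.1 (D1 α z.2) z.2.2.2.2.1 - sg (al2 α) z.2.1 z.1 0)
    / (2 * sin (al2 α + z.2.1 * z.1))

/-- Equation for the half angle of the fast ray at mirror 2; unknown `D' = z.1`. -/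
noncomputable def F2 (α : ℝ) (z : ℝ × QQ) : ℝ :=
  (K1 α z.2 - PP z.2.2.1 z.2.2.2.1 (D1 α z.2 + 2 * z.1)) / 2 - cc (al2 α) z.2.1 z.1 (E2f α z)

noncomputable def D2 (α : ℝ) (q : QQ) : ℝ := zer (F2 α) 0 (2 / tan (al2 α)) q

noncomputable def N2 (α : ℝ) (q : QQ) : ℝ := D1 α q + D2 α q

noncomputable def e2 (α : ℝ) (q : QQ) : ℝ := E2f α (D2 α q, q)

noncomputable def h2 (α : ℝ) (q : QQ) : ℝ :=
  (- PP q.2.1 q.2.2.1 (D1 α q + 2 * D2 α q) - K1 α q) / (2 * sin (al2 α + q.1 * D2 α q))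

/-- Equation of the incoming slow ray at mirror 2; unknown `D = z.1`. -/
noncomputable def F3 (α : ℝ) (z : ℝ × QQ) : ℝ :=
  PP z.2.2.1 z.2.2.2.1 (N2 α z.2 - z.1) - cc (al2 α) z.2.1 z.1 (e2 α z.2)
    + h2 α z.2 * sin (al2 α + z.2.1 * z.1)

noncomputable def D3 (α : ℝ) (q : QQ) : ℝ := zer (F3 α) (-(2 / tan (al2 α))) 0 q

noncomputable def K2 (α : ℝ) (q : QQ) : ℝ :=
  cc (al2 α) q.1 (D3 α q) (e2 α q) + h2 α q * sin (al2 α + q.1 * D3 α q)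

/-- `e` of mirror 1 after the slow link as a function of the unknown `D' = z.1`. -/
noncomputable def E4f (α : ℝ) (z : ℝ × QQ) : ℝ :=
  ((∫ y in (N2 α z.2 - D3 α z.2)..(N2 α z.2 + D3 α z.2 + 2 * z.1), PP z.2.2.1 z.2.2.2.1 y)
    - sg (al2 α) z.2.1 (D3 α z.2) (e2 α z.2) - sg α z.2.1 z.1 0)
    / (2 * sin (α + z.2.1 * z.1))

noncomputable def F4 (α : ℝ) (z : ℝ × QQ) : ℝ :=
  (K2 α z.2 + PP z.2.2.1 z.2.2.2.1 (N2 α z.2 + D3 α z.2 + 2 * z.1)) / 2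
    - cc α z.2.1 z.1 (E4f α z)

noncomputable def D4 (α : ℝ) (q : QQ) : ℝ := zer (F4 α) (-(2 / tan α)) 0 q

/-- Net displacement (in units of `t`) of the full cycle. -/
noncomputable def XX (α : ℝ) (q : QQ) : ℝ := N2 α q + D3 α q + D4 α q

noncomputable def e4 (α : ℝ) (q : QQ) : ℝ := E4f α (D4 α q, q)

noncomputable def h4 (α : ℝ) (q : QQ) : ℝ :=
  (PP q.2.1 q.2.2.1 (N2 α q + D3 α q + 2 * D4 α q) - K2 α q) / (2 * sin (α + q.1 * D4 α q))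

/-- The parameters attached to `w = (t, s, x, u)`: `e = es + u.1`, `η = s u.2 / μ`. -/
noncomputable def qm (es μ : ℝ) (w : ℝ × ℝ × ℝ × (ℝ × ℝ)) : QQ :=
  (w.1, w.2.1, w.2.2.1, es + w.2.2.2.1, w.2.1 * w.2.2.2.2 / μ)

/-- The quasi-static value `e*`. -/
noncomputable def estar (α : ℝ) : ℝ :=
  -(((1 / tan (al2 α)) ^ 2 * (1 / tan α + 1 / tan (al2 α))
      + ((1 / tan α) ^ 3 + (1 / tan (al2 α)) ^ 3) / 3)
    / (2 * sin α * ((1 / tan (al2 α)) ^ 2 - (1 / tan α) ^ 2)))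

/-- The contraction constant `γ = 2 (B ^ 2 - A ^ 2)`. -/
noncomputable def gam (α : ℝ) : ℝ := 2 * ((1 / tan (al2 α)) ^ 2 - (1 / tan α) ^ 2)

/-- Everything the launcher needs to know about the scaled system. -/
structure FinSys (α : ℝ) (ρ μ γ ε₀ : ℝ) (upl : ℝ → ℝ × ℝ)
    (a : ℝ × ℝ × ℝ × (ℝ × ℝ) → ℝ) (G : ℝ × ℝ × ℝ × (ℝ × ℝ) → ℝ × ℝ) : Prop where
  sys : Sys a G γ ρ ε₀ upl
  μpos : 0 < μ
  upl2 : ∀ ε ∈ Ioo 0 ε₀, (upl ε).2 = 0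
  rel : ∀ x ∈ Icc (0 : ℝ) (1 / 5), ∀ u : ℝ × ℝ, ‖u‖ ≤ ρ →
    ∀ᶠ w in 𝓝 ((0, 0, x, u) : ℝ × ℝ × ℝ × (ℝ × ℝ)),
      XX α (qm (estar α) μ w) = - (w.1 * a w) ∧
      e4 α (qm (estar α) μ w) =
        (PP w.2.1 w.2.2.1 (XX α (qm (estar α) μ w))) ^ 2 * (estar α + (w.2.2.2 - w.1 • G w).1) ∧
      h4 α (qm (estar α) μ w) * (1 + w.2.2.1 * w.2.1 * XX α (qm (estar α) μ w)) ^ 2 =
        w.2.1 * (PP w.2.1 w.2.2.1 (XX α (qm (estar α) μ w))) ^ 2 * ((w.2.2.2 - w.1 • G w).2 / μ)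

end Pool.Agent.Helper58.Bil
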