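import Pool.Agent.Helper58.Bil.Defs

/-!
The abstract absorbing system (section 3 of note 495): definitions.
-/

set_option autoImplicit false

namespace Pool.Agent.Helper58.Bil

open Real Set Filter Topology

/-- Hypotheses on the abstract system. -/
structure Sys {E : Type} [NormedAddCommGroup E] [NormedSpace ℝ E]
    (a : ℝ × ℝ × ℝ × E → ℝ) (G : ℝ × ℝ × ℝ × E → E) (γ ρ ε₀ : ℝ) (upl : ℝ → E) : Prop where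
  sa : SF a
  sG : SF G
  γpos : 0 < γ
  ρpos : 0 < ρ
  ε₀pos : 0 < ε₀
  apos : ∀ x ∈ Icc (0 : ℝ) (1 / 5), ∀ u : E, ‖u‖ ≤ ρ → 0 < a (0, 0, x, u)
  G0 : ∀ x ∈ Icc (0 : ℝ) (1 / 5), ∀ u : E, ‖u‖ ≤ ρ → ‖G (0, 0, x, u) - γ • u‖ ≤ γ * ρ / 2
  G1 : ∀ x ∈ Icc (0 : ℝ) (1 / 5), ∀ u : E, ‖u‖ ≤ ρ →
    ‖fderiv ℝ (fun v => G (0, 0, x, v)) u - γ • ContinuousLinearMap.id ℝ E‖ ≤ γ / 2
  pl : ∀ ε ∈ Ioo 0 ε₀, ‖upl ε‖ ≤ ρ ∧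
    ∀ x ∈ Icc (3 / 20 : ℝ) (1 / 5), G (ε, ε / x ^ 2, x, upl ε) = 0

/-- A solution curve at amplitude `ε` with bounds `C`. -/
structure Sol {E : Type} [NormedAddCommGroup E] [NormedSpace ℝ E]
    (a : ℝ × ℝ × ℝ × E → ℝ) (G : ℝ × ℝ × ℝ × E → E) (ρ : ℝ) (upl : ℝ → E)
    (ε : ℝ) (u : ℝ → E) (C : ℝ) : Prop where
  smooth : ∀ x > 0, ContDiffAt ℝ ((⊤ : ℕ∞) : WithTop ℕ∞) u x
  plat : ∀ x ≥ 3 / 20, u x = upl ε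
  bd : ∀ x > 0, ‖u x‖ ≤ ρ
  pos : ∀ x ∈ Ioo (0 : ℝ) (1 / 5), 0 < a (WW ε u x)
  eq : ∀ x ∈ Ioo (0 : ℝ) (1 / 5),
    u (x - tt ε x ^ 2 * a (WW ε u x)) = u x - tt ε x • G (WW ε u x)
  th1 : ∀ x > 0, ‖th u x‖ ≤ C
  th2 : ∀ x > 0, ‖th (th u) x‖ ≤ C

/-- `t Φ`, extended by `0`. -/
noncomputable def gfun {E : Type} (ε : ℝ) (u : ℝ → E) (Φ : ℝ × ℝ × ℝ × E → ℝ) (x : ℝ) : ℝ :=
  if x ≤ 0 then 0 else tt ε x * Φ (WW ε u x)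

/-- Prolongation: `th (Φ[u]) = (pro Φ)[u, th u]`. -/
noncomputable def pro {E F : Type} [NormedAddCommGroup E] [NormedSpace ℝ E]
    [NormedAddCommGroup F] [NormedSpace ℝ F]
    (Φ : ℝ × ℝ × ℝ × E → F) : ℝ × ℝ × ℝ × (E × E) → F := fun w =>
  fderiv ℝ Φ (w.1, w.2.1, w.2.2.1, w.2.2.2.1)
    (kt w.2.2.1 * w.1, (kt w.2.2.1 - 2 * w.2.2.1) * w.2.1, w.2.2.1 ^ 2, w.2.2.2.2)

/-- `qq a = 2 kt a + pro a`, so that `th (t ^ 2 a[u]) = t ^ 2 (qq a)[u, th u]`. -/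
noncomputable def qq {E : Type} [NormedAddCommGroup E] [NormedSpace ℝ E]
    (a : ℝ × ℝ × ℝ × E → ℝ) : ℝ × ℝ × ℝ × (E × E) → ℝ := fun w =>
  2 * kt w.2.2.1 * a (w.1, w.2.1, w.2.2.1, w.2.2.2.1) + pro a w

/-- With `f x = x - t ^ 2 a[u]`: `(th φ)(f x) = (1 - t * mm a) • th (φ ∘ f) x`. -/
noncomputable def mm {E : Type} [NormedAddCommGroup E] [NormedSpace ℝ E]
    (a : ℝ × ℝ × ℝ × E → ℝ) : ℝ × ℝ × ℝ × (E × E) → ℝ := fun w =>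
  w.2.1 * (- qq a w + 2 * w.2.2.1 * a (w.1, w.2.1, w.2.2.1, w.2.2.2.1)
      - w.2.2.1 ^ 2 * (w.1 * w.2.1) * a (w.1, w.2.1, w.2.2.1, w.2.2.2.1) ^ 2)
    / (1 - w.1 * w.2.1 * qq a w)

end Pool.Agent.Helper58.Bil
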